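import Pool.Agent.MP_a88b1d_nt.H42.Spec

/-! Row EMB: the standard embedding of the quaternion order. -/

open Polynomial Quaternion
open Pool.Agent.MP_a88b1d_nt.H42

noncomputable section

namespace Pool.Agent.MP_a88b1d_nt.H35

variable {C : Type} [NontriviallyNormedField C] [Algebra (ZMod 2) C]

theorem two_C : (2 : C) = 0 := by
  have := add_self_C (1 : C)
  linear_combination this

theorem two_A : (2 : A) = 0 := by
  have := add_self_A 1
  linear_combination this

theorem aeval_nn (T : C) : aeval T (pp * qq) = T ^ 8 + T + 1 := by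
  rw [nn_eq']; simp

theorem io00 (T e : C) (x : Quat A) : io T e x 0 0 =
    aeval T x.re + (aeval T x.imJ + aeval T x.imK) * T ^ 4 + e * aeval T x.imJ := by
  simp [io, P0, P1, evM]

theorem io01 (T e : C) (x : Quat A) : io T e x 0 1 =
    T * aeval T x.imI + aeval T x.imK * T ^ 5 + e * (aeval T x.imJ + T * aeval T x.imK) := by
  simp [io, P0, P1, evM]

theorem io10 (T e : C) (x : Quat A) : io T e x 1 0 =
    aeval T x.imI + aeval T x.imJ * T ^ 3 + aeval T x.imK * (T ^ 4 + T ^ 3) +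
      e * aeval T x.imK := by
  simp [io, P0, P1, evM]

theorem io11 (T e : C) (x : Quat A) : io T e x 1 1 =
    aeval T x.re + aeval T x.imI + (aeval T x.imJ + aeval T x.imK) * T ^ 4 +
      e * aeval T x.imJ := by
  simp [io, P0, P1, evM]

theorem mat_ext {M N : M2 C} (h00 : M 0 0 = N 0 0) (h01 : M 0 1 = N 0 1) (h10 : M 1 0 = N 1 0)
    (h11 : M 1 1 = N 1 1) : M = N := by
  ext i j
  fin_cases i <;> fin_cases j <;> assumption

theorem io_mul (T e : C) (he : e ^ 2 + T ^ 3 * e = T + 1) (x y : Quat A) :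
    io T e (x * y) = io T e x * io T e y := by
  have h2 : (2 : C) = 0 := two_C
  have hn := aeval_nn T
  apply mat_ext
  all_goals
    simp only [Matrix.mul_apply, Fin.sum_univ_two, io00, io01, io10, io11,
      QuaternionAlgebra.re_mul, QuaternionAlgebra.imI_mul, QuaternionAlgebra.imJ_mul,
      QuaternionAlgebra.imK_mul, Algebra.algebraMap_self, RingHom.id_apply, map_add, map_sub,
      map_mul (aeval T) _ (_ : A), map_one, aeval_X]
    rw [map_mul] at hn
    generalize aeval T x.re = a, aeval T x.imI = b, aeval T x.imJ = c, aeval T x.imK = d,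
      aeval T y.re = a', aeval T y.imI = b', aeval T y.imJ = c', aeval T y.imK = d',
      aeval T pp = p, aeval T qq = q at hn ⊢
    grind

/-- The standard embedding as a ring homomorphism. -/
def ioHom (T e : C) (he : e ^ 2 + T ^ 3 * e = T + 1) : Quat A →+* M2 C where
  toFun := io T e
  map_one' := by
    apply mat_ext <;> simp [io00, io01, io10, io11]
  map_mul' := io_mul T e he
  map_zero' := by
    apply mat_ext <;> simp [io00, io01, io10, io11]
  map_add' x y := by
    apply mat_ext <;>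
      simp only [Matrix.add_apply, io00, io01, io10, io11, QuaternionAlgebra.re_add,
        QuaternionAlgebra.imI_add, QuaternionAlgebra.imJ_add, QuaternionAlgebra.imK_add,
        map_add] <;> ring

theorem io_det (T e : C) (he : e ^ 2 + T ^ 3 * e = T + 1) (x : Quat A) :
    (io T e x).det = aeval T (nrd x) := by
  have h2 : (2 : C) = 0 := two_C
  have hn := aeval_nn T
  rw [Matrix.det_fin_two]
  simp only [io00, io01, io10, io11, nrd, map_add, map_mul (aeval T) _ (_ : A), map_pow, aeval_X]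
  rw [map_mul] at hn
  generalize aeval T x.re = a, aeval T x.imI = b, aeval T x.imJ = c, aeval T x.imK = d,
    aeval T pp = p, aeval T qq = q at hn ⊢
  grind

theorem io_emb (T e : C) (he : e ^ 2 + T ^ 3 * e = T + 1) (hm : e ∈ Finf T) :
    Emb T (ioHom T e he) := by
  have hT : T ∈ Finf T := by simpa using aeval_mem_Finf T X
  refine ⟨fun f => ?_, fun x i j => ?_⟩
  · change io T e _ = _
    apply mat_ext <;> simp [io00, io01, io10, io11, QuaternionAlgebra.algebraMap_eq]
  · change io T e x i j ∈ _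
    have : io T e x i j = aeval T (P0 x i j) + e * aeval T (P1 x i j) := by
      simp [io, evM]
    rw [this]
    exact add_mem (aeval_mem_Finf T _) (mul_mem hm (aeval_mem_Finf T _))

theorem star_nrd (x : Quat A) (hx : nrd x = 1) : x * star x = 1 ∧ star x * x = 1 := by
  have h2 : (2 : A) = 0 := two_A
  unfold nrd at hx
  constructor
  all_goals
    apply QuaternionAlgebra.ext
    all_goals
      simp only [QuaternionAlgebra.re_mul, QuaternionAlgebra.imI_mul, QuaternionAlgebra.imJ_mul,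
        QuaternionAlgebra.imK_mul, QuaternionAlgebra.re_star, QuaternionAlgebra.imI_star,
        QuaternionAlgebra.imJ_star, QuaternionAlgebra.imK_star, Algebra.algebraMap_self,
        RingHom.id_apply, QuaternionAlgebra.re_one, QuaternionAlgebra.imI_one,
        QuaternionAlgebra.imJ_one, QuaternionAlgebra.imK_one]
      first
        | ring1
        | linear_combination hx - (X * x.imI ^ 2 + pp * qq * (x.imJ ^ 2 + x.imJ * x.imK)) * h2

theorem aeval_inj {T : C} (hT : 1 < ‖T‖) (h : LT T) {f : A} (hf : aeval T f = 0) : f = 0 := by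
  by_contra h0
  have := h.ev f h0
  rw [hf, norm_zero] at this
  have h1 : 0 < ‖T‖ ^ f.natDegree := by positivity
  linarith

theorem unit_nrd {T : C} (hT : 1 < ‖T‖) (h : LT T) (e : C) (he : e ^ 2 + T ^ 3 * e = T + 1)
    (x : (Quat A)ˣ) : nrd x.1 = 1 := by
  have h1 : aeval T (nrd x.1 * nrd (x⁻¹).1 - 1) = 0 := by
    rw [map_sub, map_mul, ← io_det T e he, ← io_det T e he, ← Matrix.det_mul, ← io_mul T e he,
      Units.mul_inv, map_one]
    have : io T e 1 = 1 := (ioHom T e he).map_one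
    rw [this, Matrix.det_one, sub_self]
  have h2 : IsUnit (nrd x.1) :=
    IsUnit.of_mul_eq_one _ (sub_eq_zero.1 (aeval_inj hT h h1))
  obtain ⟨r, hr, hc⟩ := Polynomial.isUnit_iff.1 h2
  have : r = 1 := by
    have h3 : ∀ r : ZMod 2, r ≠ 0 → r = 1 := by decide
    exact h3 r hr.ne_zero
  rw [← hc, this, map_one]

theorem degree_lt_of_norm {T : C} (hT : 1 < ‖T‖) (h : LT T) {f : A} {j k : ℕ}
    (hf : ‖T‖ ^ j * ‖aeval T f‖ ≤ ‖T‖ ^ (j + k)) : f.degree < (k + 1 : ℕ) := by
  by_cases h0 : f = 0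
  · rw [h0, degree_zero]; exact WithBot.bot_lt_coe _
  · rw [h.ev f h0, ← pow_add, pow_le_pow_iff_right₀ hT] at hf
    rw [← natDegree_lt_iff_degree_lt h0]
    omega

section
variable [IsUltrametricDist C]

theorem nadd {x y : C} {R : ℝ} (hx : ‖x‖ ≤ R) (hy : ‖y‖ ≤ R) : ‖x + y‖ ≤ R :=
  (IsUltrametricDist.norm_add_le_max x y).trans (max_le hx hy)

theorem bounds {T : C} (hT : 1 < ‖T‖) (h : LT T) (e : C) (he : e ^ 2 + T ^ 3 * e = T + 1)
    (hs : ‖e‖ < 1) (x : Quat A) (R : ℝ) (hR : nrm (io T e x) ≤ R) :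
    ‖aeval T (x.re + (x.imJ + x.imK) * X ^ 4)‖ ≤ R ∧ ‖aeval T x.imI‖ ≤ R ∧
      ‖T‖ ^ 3 * ‖aeval T x.imJ‖ ≤ R ∧ ‖T‖ ^ 4 * ‖aeval T x.imK‖ ≤ R := by
  have h2 : (2 : C) = 0 := two_C
  have h00 : ‖io T e x 0 0‖ ≤ R := le_trans ((le_max_left _ _).trans (le_max_left _ _)) hR
  have h01 : ‖io T e x 0 1‖ ≤ R := le_trans ((le_max_right _ _).trans (le_max_left _ _)) hR
  have h10 : ‖io T e x 1 0‖ ≤ R := le_trans ((le_max_left _ _).trans (le_max_right _ _)) hR
  have h11 : ‖io T e x 1 1‖ ≤ R := le_trans ((le_max_right _ _).trans (le_max_right _ _)) hR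
  have hR0 : 0 ≤ R := (norm_nonneg _).trans h00
  have hT0 : 0 < ‖T‖ := by linarith
  have hn : ‖T ^ 8 + T + 1‖ = ‖T‖ ^ 8 := by
    have hd : (pp * qq).natDegree = 8 := by
      rw [nn_eq']; compute_degree!
    have h0 : pp * qq ≠ 0 := by
      intro h0; rw [h0] at hd; simp at hd
    rw [← aeval_nn, h.ev _ h0, hd]
  have hpow : ∀ i j : ℕ, i ≤ j → ‖T‖ ^ i * R ≤ ‖T‖ ^ j * R := fun i j hij =>
    mul_le_mul_of_nonneg_right (pow_le_pow_right₀ hT.le hij) hR0
  have hm : ∀ (i j : ℕ) (y : C), i ≤ j → ‖y‖ ≤ R → ‖T ^ i * y‖ ≤ ‖T‖ ^ j * R := by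
    intro i j y hij hy
    rw [norm_mul, norm_pow]
    exact (mul_le_mul_of_nonneg_left hy (by positivity)).trans (hpow i j hij)
  have hme : ∀ (i j : ℕ) (y : C), i ≤ j → ‖y‖ ≤ R → ‖e * (T ^ i * y)‖ ≤ ‖T‖ ^ j * R := by
    intro i j y hij hy
    rw [norm_mul]
    exact (mul_le_of_le_one_left (norm_nonneg _) hs.le).trans (hm i j y hij hy)
  have hb : ‖aeval T x.imI‖ ≤ R := by
    have : aeval T x.imI = io T e x 0 0 + io T e x 1 1 := by
      rw [io00, io11]; grind
    rw [this]; exact nadd h00 h11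
  have hd : ‖T‖ ^ 4 * ‖aeval T x.imK‖ ≤ R := by
    have e1 : (T ^ 8 + T + 1) * aeval T x.imK =
        (T ^ 3 * io T e x 0 1 + T ^ 4 * aeval T x.imI) +
          (e * (T ^ 0 * io T e x 1 0) + e * (T ^ 0 * aeval T x.imI)) := by
      rw [io01, io10]; grind
    have e2 : ‖(T ^ 8 + T + 1) * aeval T x.imK‖ ≤ ‖T‖ ^ 4 * R := by
      rw [e1]
      exact nadd (nadd (hm 3 4 _ (by norm_num) h01) (hm 4 4 _ le_rfl hb))
        (nadd (hme 0 4 _ (by norm_num) h10) (hme 0 4 _ (by norm_num) hb))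
    rw [norm_mul, hn] at e2
    have e3 : ‖T‖ ^ 4 * (‖T‖ ^ 4 * ‖aeval T x.imK‖) ≤ ‖T‖ ^ 4 * R := by
      calc _ = ‖T‖ ^ 8 * ‖aeval T x.imK‖ := by ring
        _ ≤ _ := e2
    exact le_of_mul_le_mul_left e3 (by positivity)
  have hc : ‖T‖ ^ 3 * ‖aeval T x.imJ‖ ≤ R := by
    have e1 : (T ^ 8 + T + 1) * aeval T x.imJ =
        ((T ^ 5 * io T e x 1 0 + e * (T ^ 1 * io T e x 1 0)) +
          (T ^ 4 * io T e x 0 1 + T ^ 3 * io T e x 0 1)) +
          (e * (T ^ 0 * io T e x 0 1) + T ^ 4 * aeval T x.imI) := by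
      rw [io01, io10]; grind
    have e2 : ‖(T ^ 8 + T + 1) * aeval T x.imJ‖ ≤ ‖T‖ ^ 5 * R := by
      rw [e1]
      exact nadd (nadd (nadd (hm 5 5 _ le_rfl h10) (hme 1 5 _ (by norm_num) h10))
        (nadd (hm 4 5 _ (by norm_num) h01) (hm 3 5 _ (by norm_num) h01)))
        (nadd (hme 0 5 _ (by norm_num) h01) (hm 4 5 _ (by norm_num) hb))
    rw [norm_mul, hn] at e2
    have e3 : ‖T‖ ^ 5 * (‖T‖ ^ 3 * ‖aeval T x.imJ‖) ≤ ‖T‖ ^ 5 * R := by
      calc _ = ‖T‖ ^ 8 * ‖aeval T x.imJ‖ := by ring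
        _ ≤ _ := e2
    exact le_of_mul_le_mul_left e3 (by positivity)
  refine ⟨?_, hb, hc, hd⟩
  have : aeval T (x.re + (x.imJ + x.imK) * X ^ 4) = io T e x 0 0 + e * aeval T x.imJ := by
    rw [io00]; simp only [map_add, map_mul, map_pow, aeval_X]; grind
  rw [this]
  refine nadd h00 ?_
  rw [norm_mul]
  refine (mul_le_of_le_one_left (norm_nonneg _) hs.le).trans (le_trans ?_ hc)
  exact le_mul_of_one_le_left (norm_nonneg _) (one_le_pow₀ hT.le)

theorem finite_deg (k : ℕ) : {f : A | f.degree < k}.Finite := by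
  refine ((Set.finite_lt_nat (2 ^ k)).image ofN).subset fun f hf => ?_
  obtain ⟨a, ha, rfl⟩ := exists_ofN hf
  exact ⟨a, ha, rfl⟩

/-- Row EMB. -/
theorem emb (T : C) (hT : 1 < ‖T‖) (h : LT T) (ht : TREE T) : EMB T := by
  obtain ⟨e, hm, he, hs⟩ := h.root
  have hdet : ∀ g : (Quat A)ˣ, (rD (io_emb T e he hm) g).1.det = 1 := fun g => by
    rw [rD_val]
    change (io T e g.1).det = 1
    rw [io_det T e he, unit_nrd hT h e he, map_one]
  refine ⟨e, ioHom T e he, hm, he, hs, fun _ => rfl, io_emb T e he hm, io_det T e he,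
    unit_nrd hT h e he, star_nrd, ⟨hdet, fun R => ?_⟩, fun x hx => ?_⟩
  · let φ : (Quat A)ˣ → A × A × A × A := fun g =>
      (g.1.re + (g.1.imJ + g.1.imK) * X ^ 4, g.1.imI, g.1.imJ, g.1.imK)
    have hφ : Function.Injective φ := by
      intro g g' hg
      simp only [φ, Prod.mk.injEq] at hg
      obtain ⟨h1, h2, h3, h4⟩ := hg
      rw [h3, h4] at h1
      exact Units.ext (QuaternionAlgebra.ext (add_right_cancel h1) h2 h3 h4)
    have hF := finite_deg (R + 1)
    refine ((hF.prod (hF.prod (hF.prod hF))).preimage hφ.injOn).subset fun g hg => ?_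
    have hsp := ht.spec 1 (rD (io_emb T e he hm) g)
    rw [hdet] at hsp
    simp only [OneMemClass.coe_one, Matrix.det_one, norm_one, mul_one, Matrix.adjugate_one,
      one_mul] at hsp
    have hg' : dd T 1 (rD (io_emb T e he hm) g) ≤ R := hg
    have hle : nrm (io T e g.1) ≤ ‖T‖ ^ R := by
      have h1 : nrm (io T e g.1) ^ 2 ≤ (‖T‖ ^ R) ^ 2 := by
        change _ = nrm (io T e g.1) ^ 2 at hsp
        rw [← hsp, ← pow_mul]
        exact pow_le_pow_right₀ hT.le (by omega)
      exact le_of_sq_le_sq h1 (by positivity)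
    obtain ⟨b1, b2, b3, b4⟩ := bounds hT h e he hs g.1 _ hle
    have hp : ∀ i : ℕ, ‖T‖ ^ R ≤ ‖T‖ ^ (i + R) := fun i =>
      pow_le_pow_right₀ hT.le (by omega)
    exact ⟨degree_lt_of_norm (j := 0) hT h (by rw [pow_zero, one_mul, zero_add]; exact b1),
      degree_lt_of_norm (j := 0) hT h (by rw [pow_zero, one_mul, zero_add]; exact b2),
      degree_lt_of_norm hT h (b3.trans (hp 3)), degree_lt_of_norm hT h (b4.trans (hp 4))⟩
  · obtain ⟨b1, b2, b3, b4⟩ := bounds hT h e he hs x _ hx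
    exact ⟨degree_lt_of_norm (j := 0) (k := 4) hT h (by simpa using b1),
      degree_lt_of_norm (j := 0) (k := 4) hT h (by simpa using b2),
      degree_lt_of_norm (j := 3) (k := 1) hT h b3, degree_lt_of_norm (j := 4) (k := 0) hT h b4⟩

end

end Pool.Agent.MP_a88b1d_nt.H35
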